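import Mathlib

/-! Project EH: time averages of positive definite functions of Hilbert-Schmidt type. -/

set_option autoImplicit false

open scoped BigOperators InnerProductSpace ComplexConjugate Matrix ComplexOrder
open MeasureTheory

namespace Pool.Agent.H121.EH

variable {E : Type} [NormedAddCommGroup E] [InnerProductSpace ℂ E]

/-- the Cauchy-Schwarz inequality for sums of projections -/
theorem hs_cs {A B : Type} [Fintype A] [Fintype B] (f : A → E) (g : B → E) :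
    0 ≤ ∑ a, ∑ a', ‖⟪f a, f a'⟫_ℂ‖ ^ 2 - 2 * ∑ a, ∑ b, ‖⟪f a, g b⟫_ℂ‖ ^ 2 +
      ∑ b, ∑ b', ‖⟪g b, g b'⟫_ℂ‖ ^ 2 := by
  classical
  obtain ⟨v, hv⟩ : ∃ v : A ⊕ B → E, v = Sum.elim f g := ⟨_, rfl⟩
  have h1 : (Matrix.gram ℂ v).PosSemidef := Matrix.posSemidef_gram ℂ v
  have h2 := h1.hadamard h1.transpose
  obtain ⟨x, hx⟩ : ∃ x : A ⊕ B → ℂ, x = Sum.elim (fun _ => 1) (fun _ => -1) := ⟨_, rfl⟩
  obtain ⟨M, hM⟩ : ∃ M, M = Matrix.gram ℂ v ⊙ (Matrix.gram ℂ v)ᵀ := ⟨_, rfl⟩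
  rw [← hM] at h2
  have h3 := h2.dotProduct_mulVec_nonneg x
  have hent : ∀ i j, M i j = ((‖⟪v i, v j⟫_ℂ‖ ^ 2 : ℝ) : ℂ) := by
    intro i j
    rw [hM, Matrix.hadamard_apply, Matrix.transpose_apply, Matrix.gram_apply, Matrix.gram_apply,
      ← inner_conj_symm (v j) (v i), Complex.mul_conj, Complex.normSq_eq_norm_sq]
  have h5 : ∑ b, ∑ a, ‖⟪g b, f a⟫_ℂ‖ ^ 2 = ∑ a, ∑ b, ‖⟪f a, g b⟫_ℂ‖ ^ 2 := by
    rw [Finset.sum_comm]
    refine Finset.sum_congr rfl fun a _ => Finset.sum_congr rfl fun b _ => ?_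
    rw [norm_inner_symm]
  have h4 : star x ⬝ᵥ (M *ᵥ x) =
      ((∑ i, ∑ j, ‖⟪v i, v j⟫_ℂ‖ ^ 2 * ((x i).re * (x j).re) : ℝ) : ℂ) := by
    have hxr : ∀ i, x i = (((x i).re : ℝ) : ℂ) := by
      intro i
      rw [hx]
      cases i <;> simp
    simp only [dotProduct, Matrix.mulVec, hent, Pi.star_apply]
    push_cast
    refine Finset.sum_congr rfl fun i _ => ?_
    rw [Finset.mul_sum]
    refine Finset.sum_congr rfl fun j _ => ?_
    conv_lhs => rw [hxr i, hxr j]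
    simp only [RCLike.star_def, Complex.conj_ofReal]
    ring
  rw [h4] at h3
  have h6 : (0 : ℝ) ≤ ∑ i, ∑ j, ‖⟪v i, v j⟫_ℂ‖ ^ 2 * ((x i).re * (x j).re) := by
    exact_mod_cast h3
  simp only [Fintype.sum_sum_type, hx, hv, Sum.elim_inl, Sum.elim_inr, Complex.one_re,
    Complex.neg_re, mul_one, mul_neg, neg_neg, Finset.sum_add_distrib, Finset.sum_neg_distrib] at h6
  rw [h5] at h6
  linarith

/-- the grid inequality -/
theorem grid {Q : Type} [Fintype Q] (ψ : Q → ℝ → E) (G : Q → Q → ℝ → ℝ)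
    (hG : ∀ a b s t, ‖⟪ψ a s, ψ b t⟫_ℂ‖ ^ 2 = G a b (t - s)) (m : ℕ) (s h : ℝ) :
    ∑ i : Fin m, ∑ j : Fin m, (∑ a, ∑ b, G a b (s + ((j : ℝ) - i) * h)) ≤
      ∑ i : Fin m, ∑ j : Fin m, (∑ a, ∑ b, G a b (((j : ℝ) - i) * h)) := by
  have h0 := hs_cs (fun p : Fin m × Q => ψ p.2 ((p.1 : ℝ) * h))
    (fun p : Fin m × Q => ψ p.2 (s + (p.1 : ℝ) * h))
  simp only [hG, Fintype.sum_prod_type] at h0
  have e1 : ∀ c : ℝ, ∑ i : Fin m, ∑ a, ∑ j : Fin m, ∑ b,
      G a b (c + ((j : ℝ) - i) * h) = ∑ i : Fin m, ∑ j : Fin m, (∑ a, ∑ b,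
      G a b (c + ((j : ℝ) - i) * h)) := by
    intro c
    refine Finset.sum_congr rfl fun i _ => ?_
    rw [Finset.sum_comm]
  have e2 := e1 s
  have e3 := e1 0
  simp only [zero_add] at e3
  have e4 : ∀ i j : Fin m, ∀ a b, G a b ((j : ℝ) * h - (i : ℝ) * h) =
      G a b (((j : ℝ) - i) * h) := by
    intro i j a b; congr 1; ring
  have e5 : ∀ i j : Fin m, ∀ a b, G a b (s + (j : ℝ) * h - (s + (i : ℝ) * h)) =
      G a b (((j : ℝ) - i) * h) := by
    intro i j a b; congr 1; ring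
  have e6 : ∀ i j : Fin m, ∀ a b, G a b (s + (j : ℝ) * h - (i : ℝ) * h) =
      G a b (s + ((j : ℝ) - i) * h) := by
    intro i j a b; congr 1; ring
  simp only [e4, e5, e6] at h0
  rw [e2, e3] at h0
  linarith

theorem count (m k i : ℕ) : ∑ j : Fin m, (if |((j : ℕ) : ℤ) - (i : ℤ)| < k then (1 : ℝ) else 0) ≤ 2 * k := by
  rw [Finset.sum_ite]
  simp only [Finset.sum_const, Finset.sum_const_zero, add_zero, nsmul_eq_mul, mul_one]
  have h1 : (Finset.univ.filter fun j : Fin m => |((j : ℕ) : ℤ) - (i : ℤ)| < k).card ≤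
      (Finset.Ioo ((i : ℤ) - k) ((i : ℤ) + k)).card := by
    refine Finset.card_le_card_of_injOn (fun j => ((j : ℕ) : ℤ)) ?_ ?_
    · intro j hj
      simp only [Finset.coe_filter, Finset.mem_univ, true_and, Set.mem_setOf_eq, abs_lt] at hj
      simp only [Finset.coe_Ioo, Set.mem_Ioo]
      constructor <;> linarith [hj.1, hj.2]
    · intro a _ b _ hab
      simp only [Nat.cast_inj] at hab
      exact Fin.ext hab
  rw [Int.card_Ioo] at h1
  have h2 : ((i : ℤ) + k - ((i : ℤ) - k) - 1).toNat ≤ 2 * k := by omega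
  exact_mod_cast h1.trans h2

/-- time averages -/
theorem avg {F : ℝ → ℝ} (hF : Continuous F) (h0 : ∀ t, 0 ≤ F t) {N e : ℝ} (hN0 : 0 ≤ N)
    (he0 : 0 ≤ e) (hN : ∀ t, F t ≤ N) {k : ℕ} (hk : 0 < k) {h : ℝ} (hh : 0 < h)
    (he : ∀ t, (k : ℝ) * h ≤ |t| → |t| ≤ (k : ℝ) ^ 2 * h → F t ≤ e * N)
    (hg : ∀ s, ∑ i : Fin (k ^ 2), ∑ j : Fin (k ^ 2), F (s + ((j : ℝ) - i) * h) ≤
      ∑ i : Fin (k ^ 2), ∑ j : Fin (k ^ 2), F (((j : ℝ) - i) * h))
    {T : ℝ} (hT : (k : ℝ) ^ 2 * h ≤ T) :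
    ∫ t in (0 : ℝ)..T, F t ≤ 3 * (e + 2 / k) * N * T := by
  have hkR : (0 : ℝ) < k := by exact_mod_cast hk
  have hT0 : 0 < (k : ℝ) ^ 2 * h := by positivity
  have hTp : 0 < T := hT0.trans_le hT
  -- the sum over the grid
  have hS : ∑ i : Fin (k ^ 2), ∑ j : Fin (k ^ 2), F (((j : ℝ) - i) * h) ≤
      ((k : ℝ) ^ 2) ^ 2 * ((e + 2 / k) * N) := by
    have h1 : ∀ i j : Fin (k ^ 2), F (((j : ℝ) - i) * h) ≤
        e * N + N * (if |((j : ℕ) : ℤ) - ((i : ℕ) : ℤ)| < k then (1 : ℝ) else 0) := by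
      intro i j
      split_ifs with hc
      · have := hN (((j : ℝ) - i) * h)
        nlinarith [mul_nonneg he0 hN0]
      · rw [mul_zero, add_zero]
        have hcast : ((|((j : ℕ) : ℤ) - ((i : ℕ) : ℤ)| : ℤ) : ℝ) = |(j : ℝ) - i| := by
          push_cast; rfl
        have hc1 : (k : ℝ) ≤ |(j : ℝ) - i| := by
          rw [← hcast]
          exact_mod_cast not_lt.1 hc
        have hj : (j : ℝ) < (k : ℝ) ^ 2 := by exact_mod_cast j.2
        have hi : (i : ℝ) < (k : ℝ) ^ 2 := by exact_mod_cast i.2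
        have hj0 : (0 : ℝ) ≤ j := by positivity
        have hi0 : (0 : ℝ) ≤ i := by positivity
        have hc2 : |(j : ℝ) - i| ≤ (k : ℝ) ^ 2 := by
          rw [abs_le]; constructor <;> linarith
        apply he
        · rw [abs_mul, abs_of_pos hh]
          exact mul_le_mul_of_nonneg_right hc1 hh.le
        · rw [abs_mul, abs_of_pos hh]
          exact mul_le_mul_of_nonneg_right hc2 hh.le
    have h2 : ∀ i : Fin (k ^ 2), ∑ j : Fin (k ^ 2), F (((j : ℝ) - i) * h) ≤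
        (k : ℝ) ^ 2 * (e * N) + N * (2 * k) := by
      intro i
      refine (Finset.sum_le_sum fun j _ => h1 i j).trans ?_
      have h3 := count (k ^ 2) k i
      have h4 : ∑ _j : Fin (k ^ 2), e * N = (k : ℝ) ^ 2 * (e * N) := by
        simp
      have h5 : ∑ j : Fin (k ^ 2), N * (if |((j : ℕ) : ℤ) - ((i : ℕ) : ℤ)| < k then (1 : ℝ) else 0) =
          N * ∑ j : Fin (k ^ 2), (if |((j : ℕ) : ℤ) - ((i : ℕ) : ℤ)| < k then (1 : ℝ) else 0) :=
        (Finset.mul_sum _ _ _).symm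
      rw [Finset.sum_add_distrib, h4, h5]
      have := mul_le_mul_of_nonneg_left h3 hN0
      linarith
    refine (Finset.sum_le_sum fun i _ => h2 i).trans (le_of_eq ?_)
    rw [Finset.sum_const, Finset.card_univ, Fintype.card_fin, nsmul_eq_mul]
    push_cast
    field_simp
  set S := ∑ i : Fin (k ^ 2), ∑ j : Fin (k ^ 2), F (((j : ℝ) - i) * h) with hSdef
  set T0 := (k : ℝ) ^ 2 * h with hT0def
  have hint : ∀ (a b c : ℝ), IntervalIntegrable (fun s => F (s + c)) volume a b := fun a b c =>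
    (hF.comp (continuous_id.add continuous_const)).intervalIntegrable a b
  have hI1 : ∫ s in (-T0)..(T + T0), (∑ i : Fin (k ^ 2), ∑ j : Fin (k ^ 2),
      F (s + ((j : ℝ) - i) * h)) ≤ ∫ _s in (-T0)..(T + T0), S := by
    refine intervalIntegral.integral_mono_on (by linarith) ?_ intervalIntegrable_const
      fun s _ => hg s
    refine Continuous.intervalIntegrable ?_ _ _
    refine continuous_finset_sum _ fun i _ => continuous_finset_sum _ fun j _ => ?_
    exact hF.comp (continuous_id.add continuous_const)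
  rw [intervalIntegral.integral_const, smul_eq_mul,
    intervalIntegral.integral_finset_sum (fun i _ => by
      refine Continuous.intervalIntegrable ?_ _ _
      exact continuous_finset_sum _ fun j _ => hF.comp (continuous_id.add continuous_const))] at hI1
  have hI2 : ∀ i j : Fin (k ^ 2), ∫ t in (0 : ℝ)..T, F t ≤
      ∫ s in (-T0)..(T + T0), F (s + ((j : ℝ) - i) * h) := by
    intro i j
    rw [intervalIntegral.integral_comp_add_right (fun s => F s)]
    have hj : (j : ℝ) < (k : ℝ) ^ 2 := by exact_mod_cast j.2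
    have hi : (i : ℝ) < (k : ℝ) ^ 2 := by exact_mod_cast i.2
    have hj0 : (0 : ℝ) ≤ j := by positivity
    have hi0 : (0 : ℝ) ≤ i := by positivity
    have hc2 : |((j : ℝ) - i) * h| ≤ T0 := by
      rw [abs_mul, abs_of_pos hh, hT0def]
      refine mul_le_mul_of_nonneg_right ?_ hh.le
      rw [abs_le]; constructor <;> linarith
    rw [abs_le] at hc2
    refine intervalIntegral.integral_mono_interval (by linarith) hTp.le (by linarith)
      (Filter.Eventually.of_forall fun t => h0 t) (hF.intervalIntegrable _ _)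
  have hI3 : ((k : ℝ) ^ 2) ^ 2 * ∫ t in (0 : ℝ)..T, F t ≤
      ∑ i : Fin (k ^ 2), ∫ s in (-T0)..(T + T0), ∑ j : Fin (k ^ 2), F (s + ((j : ℝ) - i) * h) := by
    have h1 : ∀ i : Fin (k ^ 2), (k : ℝ) ^ 2 * ∫ t in (0 : ℝ)..T, F t ≤
        ∫ s in (-T0)..(T + T0), ∑ j : Fin (k ^ 2), F (s + ((j : ℝ) - i) * h) := by
      intro i
      rw [intervalIntegral.integral_finset_sum (fun j _ => hint _ _ _)]
      refine le_trans (le_of_eq ?_) (Finset.sum_le_sum fun j _ => hI2 i j)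
      simp
    refine le_trans (le_of_eq ?_) (Finset.sum_le_sum fun i _ => h1 i)
    simp
    ring
  have hI4 : ((k : ℝ) ^ 2) ^ 2 * ∫ t in (0 : ℝ)..T, F t ≤
      ((k : ℝ) ^ 2) ^ 2 * (3 * (e + 2 / k) * N * T) := by
    refine (hI3.trans hI1).trans ?_
    have h5 : (T + T0 - -T0) ≤ 3 * T := by linarith
    have h6 : 0 ≤ ((k : ℝ) ^ 2) ^ 2 * ((e + 2 / k) * N) := by positivity
    calc (T + T0 - -T0) * S ≤ (T + T0 - -T0) * (((k : ℝ) ^ 2) ^ 2 * ((e + 2 / k) * N)) :=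
          mul_le_mul_of_nonneg_left hS (by linarith)
      _ ≤ 3 * T * (((k : ℝ) ^ 2) ^ 2 * ((e + 2 / k) * N)) := mul_le_mul_of_nonneg_right h5 h6
      _ = _ := by ring
  exact le_of_mul_le_mul_left hI4 (by positivity)

end Pool.Agent.H121.EH
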