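import Pool.Agent.H121.EH.Lat
import Pool.Agent.H989.DY.FreeBox

/-! Project EH: the deterministic theorem. -/

set_option autoImplicit false

open scoped BigOperators InnerProductSpace ComplexConjugate
open MeasureTheory

namespace Pool.Agent.H121.EH

open Pool.Agent.Y662.TR (dv inner_dv dv_apply norm_dv Mw Mw_apply Mw_norm Mw_sa clp_eq ev ll_sum)
open Pool.Agent.W788.LD.Spec (S)
open Pool.Agent.H4R2.LO (Zd)
open Pool.Agent.H989.DY (LL Ev ev_unique ev_exists DyRes_act DyRes_ker free_box)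

variable {d : ℕ}

/-- the box of side `l` with the corner `c` -/
noncomputable def bx (c : Zd d) (l : ℕ) : Finset (Zd d) := Fintype.piFinset fun i => Finset.Ico (c i) (c i + l)

theorem bx_card (c : Zd d) (l : ℕ) : ((bx c l).card : ℝ) = (l : ℝ) ^ d := by
  unfold bx
  rw [Fintype.card_piFinset]
  simp

/-- **deterministic statement** -/
theorem det {ε : ℝ} (hε : 0 < ε) : ∃ κ : ℝ, 0 < κ ∧ ∀ (d l : ℕ), 0 < l → (l : ℝ) ≤ κ * d →
    ∀ (W : Zd d → ℝ), (∀ x, |W x| ≤ 1) → ∀ (c : Zd d) (T : ℝ), 1 ≤ T →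
    ∀ ψ : Zd d → ℝ → Zd d → ℂ, (∀ a ∈ bx c l, Ev d W a (ψ a)) →
    ∫ t in (0 : ℝ)..T, ∑ a ∈ bx c l, ∑ y ∈ bx c l, ‖ψ a t y‖ ^ 2 ≤
      ε * ((bx c l).card : ℝ) * T := by
  obtain ⟨k, hk⟩ := exists_nat_gt (max (18 / ε) 1)
  have hk1 : (1 : ℝ) < k := (le_max_right _ _).trans_lt hk
  have hk2 : 18 / ε < k := (le_max_left _ _).trans_lt hk
  have hk0 : 0 < k := by
    have : (0 : ℝ) < k := by linarith
    exact_mod_cast this
  have hkR : (0 : ℝ) < k := by linarith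
  set h : ℝ := 1 / (16 * (k : ℝ) ^ 3) with hh
  have hh0 : 0 < h := by positivity
  have hT0 : (k : ℝ) ^ 2 * h = 1 / (16 * k) := by
    rw [hh]; field_simp
  have ht1 : (k : ℝ) * h = 1 / (16 * (k : ℝ) ^ 2) := by
    rw [hh]; field_simp
  have hT1 : (k : ℝ) ^ 2 * h ≤ 1 / 16 := by
    rw [hT0]
    exact one_div_le_one_div_of_le (by norm_num) (by linarith)
  -- the constant
  set κ : ℝ := ((k : ℝ) * h) ^ 2 / (4 * k) with hκ
  have hκ0 : 0 < κ := by positivity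
  refine ⟨κ, hκ0, fun d l hl hld W hW c T hT ψ hψ => ?_⟩
  have hlR : (0 : ℝ) < l := by exact_mod_cast hl
  choose ψ0 hψ0 using fun a : Zd d => ev_exists (fun _ : Zd d => (0 : ℝ)) a
  have hfree : ∀ t : ℝ, (k : ℝ) * h ≤ |t| → |t| ≤ (k : ℝ) ^ 2 * h →
      ∑ a ∈ bx c l, ∑ y ∈ bx c l, ‖ψ0 a t y‖ ^ 2 ≤ (1 / k) * ((bx c l).card : ℝ) := by
    intro t h1 h2
    refine (free_box hl c hψ0 t (h2.trans hT1)).trans ?_
    rw [bx_card, mul_comm]
    refine mul_le_mul_of_nonneg_right ?_ (by positivity)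
    -- exp(-x) ≤ 1 / x ≤ 1 / k
    have h3 : (k : ℝ) ≤ d * t ^ 2 / (4 * l) := by
      rw [le_div_iff₀ (by positivity)]
      have h4 : ((k : ℝ) * h) ^ 2 ≤ t ^ 2 := by
        rw [← sq_abs t]
        exact pow_le_pow_left₀ (by positivity) h1 2
      have h5 : (k : ℝ) * (4 * l) ≤ (k : ℝ) * (4 * (κ * d)) := by
        gcongr
      have h6 : (k : ℝ) * (4 * (κ * d)) = d * ((k : ℝ) * h) ^ 2 := by
        rw [hκ]; field_simp
      have h7 : (d : ℝ) * ((k : ℝ) * h) ^ 2 ≤ d * t ^ 2 := by gcongr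
      linarith
    have h8 : 0 < d * t ^ 2 / (4 * l) := hkR.trans_le h3
    rw [Real.exp_neg, one_div]
    refine inv_anti₀ hkR ?_
    exact h3.trans ((by linarith [Real.add_one_le_exp (d * t ^ 2 / (4 * (l : ℝ)))]))
  have h1 := core hW ψ (bx c l) hψ (e := 1 / k) (by positivity) hk0 hh0 ψ0 hψ0 hfree
    (T := T) (by linarith)
  refine h1.trans ?_
  refine mul_le_mul_of_nonneg_right (mul_le_mul_of_nonneg_right ?_ (by positivity)) (by linarith)
  have h2 : 2 * ((k : ℝ) ^ 2 * h) ^ 2 ≤ 2 / k := by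
    rw [hT0]
    rw [div_pow, one_pow, ← mul_div_assoc, mul_one]
    refine div_le_div_of_nonneg_left (by norm_num) hkR ?_
    nlinarith
  have h3 : 18 / (k : ℝ) ≤ ε := by
    rw [div_le_iff₀ hkR]
    rw [div_lt_iff₀ hε] at hk2
    linarith
  have h4 : 3 * (2 * (1 / (k : ℝ)) + 2 * ((k : ℝ) ^ 2 * h) ^ 2 + 2 / k) ≤ 18 / k := by
    have h5 : 2 * (1 / (k : ℝ)) = 2 / k := by ring
    have h6 : 18 / (k : ℝ) = 3 * (2 / k + 2 / k + 2 / k) := by ring
    rw [h5, h6]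
    linarith
  exact h4.trans h3

end Pool.Agent.H121.EH
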