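import Pool.Agent.H121.EH.Fin

/-! Project EH: eigenfunctions. -/

set_option autoImplicit false

open scoped BigOperators InnerProductSpace ComplexConjugate
open MeasureTheory

namespace Pool.Agent.H121.EH

/-- the sum over the grid -/
theorem gridS {F : ℝ → ℝ} {N e : ℝ} (hN0 : 0 ≤ N)
    (he0 : 0 ≤ e) (hN : ∀ t, F t ≤ N) {k : ℕ} (hk : 0 < k) {h : ℝ} (hh : 0 < h)
    (he : ∀ t, (k : ℝ) * h ≤ |t| → |t| ≤ (k : ℝ) ^ 2 * h → F t ≤ e * N) :
    ∑ i : Fin (k ^ 2), ∑ j : Fin (k ^ 2), F (((j : ℝ) - i) * h) ≤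
      ((k : ℝ) ^ 2) ^ 2 * ((e + 2 / k) * N) := by
  have hkR : (0 : ℝ) < k := by exact_mod_cast hk
  have h1 : ∀ i j : Fin (k ^ 2), F (((j : ℝ) - i) * h) ≤
      e * N + N * (if |((j : ℕ) : ℤ) - ((i : ℕ) : ℤ)| < k then (1 : ℝ) else 0) := by
    intro i j
    split_ifs with hc
    · have := hN (((j : ℝ) - i) * h)
      nlinarith [mul_nonneg he0 hN0]
    · rw [mul_zero, add_zero]
      have hcast : ((|((j : ℕ) : ℤ) - ((i : ℕ) : ℤ)| : ℤ) : ℝ) = |(j : ℝ) - i| := by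
        push_cast; rfl
      have hc1 : (k : ℝ) ≤ |(j : ℝ) - i| := by
        rw [← hcast]
        exact_mod_cast not_lt.1 hc
      have hj : (j : ℝ) < (k : ℝ) ^ 2 := by exact_mod_cast j.2
      have hi : (i : ℝ) < (k : ℝ) ^ 2 := by exact_mod_cast i.2
      have hj0 : (0 : ℝ) ≤ j := by positivity
      have hi0 : (0 : ℝ) ≤ i := by positivity
      have hc2 : |(j : ℝ) - i| ≤ (k : ℝ) ^ 2 := by
        rw [abs_le]; constructor <;> linarith
      apply he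
      · rw [abs_mul, abs_of_pos hh]
        exact mul_le_mul_of_nonneg_right hc1 hh.le
      · rw [abs_mul, abs_of_pos hh]
        exact mul_le_mul_of_nonneg_right hc2 hh.le
  have h2 : ∀ i : Fin (k ^ 2), ∑ j : Fin (k ^ 2), F (((j : ℝ) - i) * h) ≤
      (k : ℝ) ^ 2 * (e * N) + N * (2 * k) := by
    intro i
    refine (Finset.sum_le_sum fun j _ => h1 i j).trans ?_
    have h3 := count (k ^ 2) k i
    have h4 : ∑ _j : Fin (k ^ 2), e * N = (k : ℝ) ^ 2 * (e * N) := by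
      simp
    have h5 : ∑ j : Fin (k ^ 2), N * (if |((j : ℕ) : ℤ) - ((i : ℕ) : ℤ)| < k then (1 : ℝ) else 0) =
        N * ∑ j : Fin (k ^ 2), (if |((j : ℕ) : ℤ) - ((i : ℕ) : ℤ)| < k then (1 : ℝ) else 0) :=
      (Finset.mul_sum _ _ _).symm
    rw [Finset.sum_add_distrib, h4, h5]
    have := mul_le_mul_of_nonneg_left h3 hN0
    linarith
  refine (Finset.sum_le_sum fun i _ => h2 i).trans (le_of_eq ?_)
  rw [Finset.sum_const, Finset.card_univ, Fintype.card_fin, nsmul_eq_mul]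
  push_cast
  field_simp

section group
variable {E : Type} [NormedAddCommGroup E] [InnerProductSpace ℂ E] [CompleteSpace E]

theorem Ug_eig {A : E →L[ℂ] E} {u : E} {r : ℝ} (hu : A u = (r : ℂ) • u) (t : ℝ) :
    Complex.exp (Complex.I * r * t) • Ug A t u = u := by
  have hd : ∀ s : ℝ, HasDerivAt (fun s : ℝ => Complex.exp (Complex.I * r * s) • Ug A s u) 0 s := by
    intro s
    have h0 : HasDerivAt (fun s : ℝ => Complex.I * r * (s : ℂ)) (Complex.I * r) s := by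
      have := (Complex.ofRealCLM.hasDerivAt (x := s)).const_mul (Complex.I * (r : ℂ))
      simpa using this
    have h1 := h0.cexp
    have h2 : HasDerivAt (fun s : ℝ => Ug A s u) ((Ug A s * (-Complex.I • A)) u) s := by
      have h3 := Ug_deriv' A s
      exact ((ContinuousLinearMap.apply ℂ E u).restrictScalars ℝ).hasFDerivAt.comp_hasDerivAt s h3
    have h4 := h1.smul h2
    refine h4.congr_deriv ?_
    have h5 : (Ug A s * (-Complex.I • A)) u = (-Complex.I * r) • Ug A s u := by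
      change Ug A s (-Complex.I • A u) = _
      rw [hu, map_smul, map_smul, mul_smul]
    rw [h5, smul_smul, ← add_smul]
    have h6 : Complex.exp (Complex.I * r * s) * (-Complex.I * r) +
        Complex.exp (Complex.I * r * s) * (Complex.I * r) = 0 := by ring
    rw [h6, zero_smul]
  have h1 := is_const_of_deriv_eq_zero (𝕜 := ℝ) (fun s => (hd s).differentiableAt)
    (fun s => (hd s).deriv) t 0
  rw [h1]
  simp [Ug_zero]

end group

open Pool.Agent.Y662.TR (dv inner_dv dv_apply norm_dv ll_sum)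
open Pool.Agent.W788.LD.Spec (S)
open Pool.Agent.H4R2.LO (Zd)
open Pool.Agent.H989.DY (LL Ev ev_unique ev_exists free_box)

variable {d : ℕ}

/-- masses of an orthonormal family of eigenvectors -/
theorem eig_le {A : LL (Zd d) →L[ℂ] LL (Zd d)} (hA : IsSelfAdjoint A) (Q : Finset (Zd d)) (m : ℕ)
    (hm : 0 < m) (h : ℝ) (n : ℕ) (u : Fin n → LL (Zd d)) (r : Fin n → ℝ) (hu : Orthonormal ℂ u)
    (he : ∀ j, A (u j) = (r j : ℂ) • u j) :
    ((m : ℝ)) ^ 2 * ∑ j, (∑ x ∈ Q, ‖u j x‖ ^ 2) ^ 2 ≤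
      ∑ i : Fin m, ∑ j : Fin m, FQ A Q (((j : ℝ) - i) * h) := by
  classical
  have hmR : (0 : ℝ) < m := by exact_mod_cast hm
  obtain ⟨c, hc⟩ : ∃ c : Fin n → ℝ, ∀ j, c j = ∑ x ∈ Q, ‖u j x‖ ^ 2 := ⟨_, fun _ => rfl⟩
  have hc0 : ∀ j, 0 ≤ c j := fun j => by rw [hc]; positivity
  have hum : ∀ (t : ℝ) (j : Fin n) (a : Zd d), ‖⟪Ug A t (dv a), u j⟫_ℂ‖ = ‖u j a‖ := by
    intro t j a
    have h1 := Ug_inner hA t 0 (dv a) (u j)
    rw [Ug_zero] at h1
    have h1' : ⟪Ug A t (dv a), u j⟫_ℂ = ⟪dv a, Ug A (0 - t) (u j)⟫_ℂ := h1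
    rw [h1', inner_dv]
    have h2 := Ug_eig (he j) (0 - t)
    have h3 : u j a = Complex.exp (Complex.I * r j * ((0 - t : ℝ) : ℂ)) * Ug A (0 - t) (u j) a := by
      conv_lhs => rw [← h2]
      rfl
    rw [h3, norm_mul, ev_gauge.norm_ph, one_mul]
  have h0 := hs_cs
    (fun p : Fin m × {x // x ∈ Q} => Ug A ((p.1 : ℝ) * h) (dv p.2.1))
    (fun j : Fin n => ((Real.sqrt (m * c j) : ℝ) : ℂ) • u j)
  -- the three sums
  have e1 : ∑ a : Fin m × {x // x ∈ Q}, ∑ a' : Fin m × {x // x ∈ Q},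
      ‖⟪Ug A ((a.1 : ℝ) * h) (dv a.2.1), Ug A ((a'.1 : ℝ) * h) (dv a'.2.1)⟫_ℂ‖ ^ 2 =
      ∑ i : Fin m, ∑ j : Fin m, FQ A Q (((j : ℝ) - i) * h) := by
    simp only [Fintype.sum_prod_type]
    refine Finset.sum_congr rfl fun i _ => ?_
    rw [Finset.sum_comm]
    refine Finset.sum_congr rfl fun j _ => ?_
    unfold FQ
    refine Finset.sum_congr rfl fun a _ => Finset.sum_congr rfl fun b _ => ?_
    rw [Ug_inner hA, inner_dv]
    congr 4
    ring
  have e2 : ∑ a : Fin m × {x // x ∈ Q}, ∑ j : Fin n,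
      ‖⟪Ug A ((a.1 : ℝ) * h) (dv a.2.1), ((Real.sqrt (m * c j) : ℝ) : ℂ) • u j⟫_ℂ‖ ^ 2 =
      m * ∑ j, m * c j ^ 2 := by
    have h1 : ∀ (a : Fin m × {x // x ∈ Q}) (j : Fin n),
        ‖⟪Ug A ((a.1 : ℝ) * h) (dv a.2.1), ((Real.sqrt (m * c j) : ℝ) : ℂ) • u j⟫_ℂ‖ ^ 2 =
        m * c j * ‖u j a.2.1‖ ^ 2 := by
      intro a j
      rw [inner_smul_right, norm_mul, hum, Complex.norm_real, Real.norm_eq_abs, mul_pow, sq_abs,
        Real.sq_sqrt (mul_nonneg hmR.le (hc0 j))]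
    simp only [h1]
    have key : ∀ _i : Fin m, ∑ y : {x // x ∈ Q}, ∑ j : Fin n, (m : ℝ) * c j * ‖u j y.1‖ ^ 2 =
        ∑ j, (m : ℝ) * c j ^ 2 := by
      intro _
      rw [Finset.sum_comm]
      refine Finset.sum_congr rfl fun j _ => ?_
      have h7 : ∑ y : {x // x ∈ Q}, ‖u j y.1‖ ^ 2 = c j := by
        rw [hc]
        exact Finset.sum_coe_sort Q (fun x => ‖u j x‖ ^ 2)
      rw [← Finset.mul_sum, h7]
      ring
    calc ∑ a : Fin m × {x // x ∈ Q}, ∑ j : Fin n, (m : ℝ) * c j * ‖u j a.2.1‖ ^ 2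
        = ∑ _i : Fin m, ∑ y : {x // x ∈ Q}, ∑ j : Fin n, (m : ℝ) * c j * ‖u j y.1‖ ^ 2 :=
          Fintype.sum_prod_type _
      _ = ∑ _i : Fin m, ∑ j, (m : ℝ) * c j ^ 2 := Finset.sum_congr rfl fun i _ => key i
      _ = m * ∑ j, m * c j ^ 2 := by simp
  have e3 : ∑ b : Fin n, ∑ b' : Fin n,
      ‖⟪((Real.sqrt (m * c b) : ℝ) : ℂ) • u b, ((Real.sqrt (m * c b') : ℝ) : ℂ) • u b'⟫_ℂ‖ ^ 2 =
      ∑ j, ((m : ℝ) * c j) ^ 2 := by
    refine Finset.sum_congr rfl fun b _ => ?_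
    rw [Finset.sum_eq_single b]
    · rw [inner_smul_left, inner_smul_right, orthonormal_iff_ite.1 hu b b, if_pos rfl, mul_one,
        norm_mul, Complex.conj_ofReal, Complex.norm_real, Real.norm_eq_abs, ← sq, sq_abs,
        Real.sq_sqrt (mul_nonneg hmR.le (hc0 b))]
    · intro b' _ hb
      rw [inner_smul_left, inner_smul_right, orthonormal_iff_ite.1 hu b b', if_neg (Ne.symm hb)]
      simp
    · intro hb
      exact absurd (Finset.mem_univ b) hb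
  rw [e1, e2, e3] at h0
  simp only [← hc]
  have h1 : ∑ j, ((m : ℝ) * c j) ^ 2 = (m : ℝ) ^ 2 * ∑ j, c j ^ 2 := by
    rw [Finset.mul_sum]
    exact Finset.sum_congr rfl fun j _ => by ring
  have h2 : (m : ℝ) * ∑ j, (m : ℝ) * c j ^ 2 = (m : ℝ) ^ 2 * ∑ j, c j ^ 2 := by
    rw [← Finset.mul_sum, ← mul_assoc, sq]
  rw [h1, h2] at h0
  linarith

end Pool.Agent.H121.EH
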