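import Pool.Agent.H121.EH.Eig

/-! Project EH: eigenfunctions of `S + W`. -/

set_option autoImplicit false

open scoped BigOperators InnerProductSpace ComplexConjugate
open MeasureTheory

namespace Pool.Agent.H121.EH

open Pool.Agent.Y662.TR (dv inner_dv dv_apply norm_dv Mw Mw_apply Mw_norm Mw_sa clp_eq ev ll_sum)
open Pool.Agent.W788.LD.Spec (S)
open Pool.Agent.H4R2.LO (Zd)
open Pool.Agent.H989.DY (LL Ev ev_unique ev_exists DyRes_act DyRes_ker free_box)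

variable {d : ℕ}

theorem FQ_card {A : LL (Zd d) →L[ℂ] LL (Zd d)} (hA : IsSelfAdjoint A) (Q : Finset (Zd d)) (t : ℝ) :
    FQ A Q t ≤ (Q.card : ℝ) := by
  rw [FQ_eq]
  refine (Finset.sum_le_sum fun a _ => mass_le hA Q t a).trans (le_of_eq ?_)
  simp

theorem FQ_small {W : Zd d → ℝ} (Q : Finset (Zd d)) {e : ℝ} {k : ℕ} {h : ℝ}
    (ψ0 : Zd d → ℝ → Zd d → ℂ) (hψ0 : ∀ a, Ev d (fun _ => 0) a (ψ0 a))
    (hfree : ∀ t : ℝ, (k : ℝ) * h ≤ |t| → |t| ≤ (k : ℝ) ^ 2 * h →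
      ∑ a ∈ Q, ∑ y ∈ Q, ‖ψ0 a t y‖ ^ 2 ≤ e * (Q.card : ℝ)) (t : ℝ)
    (ht1 : (k : ℝ) * h ≤ |t|) (ht2 : |t| ≤ (k : ℝ) ^ 2 * h) :
    FQ (H1 W) Q t ≤ (2 * e + 2 * ((k : ℝ) ^ 2 * h) ^ 2) * (Q.card : ℝ) := by
  have hA := H1_sa W
  rw [FQ_eq]
  have h1 : ∀ a ∈ Q, ∑ y ∈ Q, ‖Ug (H1 W) t (dv a) y‖ ^ 2 ≤
      2 * ∑ y ∈ Q, ‖ψ0 a t y‖ ^ 2 + 2 * ((k : ℝ) ^ 2 * h) ^ 2 := by
    intro a _
    have h2 : ∀ y, ψ0 a t y = Ug (H0 d) t (dv a) y := fun y =>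
      pk (H0_sa d) (fun u x => by rw [H0_act]; simp) (hψ0 a) t y
    have h3 : ∀ y, ‖Ug (H1 W) t (dv a) y‖ ^ 2 ≤ 2 * ‖ψ0 a t y‖ ^ 2 +
        2 * ‖(Ug (H1 W) t (dv a) - Ug (H0 d) t (dv a)) y‖ ^ 2 := by
      intro y
      rw [h2]
      have h4 : Ug (H1 W) t (dv a) y = Ug (H0 d) t (dv a) y +
          (Ug (H1 W) t (dv a) - Ug (H0 d) t (dv a)) y := by
        rw [lp.coeFn_sub, Pi.sub_apply]
        ring
      have h5 := norm_add_le (Ug (H0 d) t (dv a) y)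
        ((Ug (H1 W) t (dv a) - Ug (H0 d) t (dv a)) y)
      rw [← h4] at h5
      have h6 := norm_nonneg (Ug (H1 W) t (dv a) y)
      nlinarith [sq_nonneg (‖Ug (H0 d) t (dv a) y‖ -
        ‖(Ug (H1 W) t (dv a) - Ug (H0 d) t (dv a)) y‖)]
    refine (Finset.sum_le_sum fun y _ => h3 y).trans ?_
    rw [Finset.sum_add_distrib, ← Finset.mul_sum, ← Finset.mul_sum]
    have h7 : ∑ y ∈ Q, ‖(Ug (H1 W) t (dv a) - Ug (H0 d) t (dv a)) y‖ ^ 2 ≤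
        ‖Ug (H1 W) t (dv a) - Ug (H0 d) t (dv a)‖ ^ 2 :=
      sum_le_hasSum Q (fun _ _ => by positivity) (ll_sum _)
    have h8 : ‖Ug (H1 W) t (dv a) - Ug (H0 d) t (dv a)‖ ≤ (k : ℝ) ^ 2 * h := by
      refine (Ug_close hA (H0_sa d) t (dv a)).trans ?_
      rw [norm_dv, mul_one]
      refine (mul_le_mul_of_nonneg_right (H1_sub W) (abs_nonneg t)).trans ?_
      rw [one_mul]
      exact ht2
    have h9 := pow_le_pow_left₀ (norm_nonneg _) h8 2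
    linarith
  refine (Finset.sum_le_sum h1).trans ?_
  rw [Finset.sum_add_distrib, ← Finset.mul_sum]
  have h2 := hfree t ht1 ht2
  rw [Finset.sum_const, nsmul_eq_mul]
  linarith

/-- **eigenfunctions** -/
theorem detE {ε : ℝ} (hε : 0 < ε) : ∃ κ : ℝ, 0 < κ ∧ ∀ (d l : ℕ), 0 < l → (l : ℝ) ≤ κ * d →
    ∀ (W : Zd d → ℝ), (∀ x, |W x| ≤ 1) → ∀ (c : Zd d) (n : ℕ) (u : Fin n → LL (Zd d))
    (r : Fin n → ℝ), Orthonormal ℂ u →
    (∀ j x, S (fun y => u j y) x + (W x : ℂ) * u j x = (r j : ℂ) * u j x) →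
    ∑ j, (∑ x ∈ bx c l, ‖u j x‖ ^ 2) ^ 2 ≤ ε * ((bx c l).card : ℝ) := by
  obtain ⟨k, hk⟩ := exists_nat_gt (max (18 / ε) 1)
  have hk1 : (1 : ℝ) < k := (le_max_right _ _).trans_lt hk
  have hk2 : 18 / ε < k := (le_max_left _ _).trans_lt hk
  have hk0 : 0 < k := by
    have : (0 : ℝ) < k := by linarith
    exact_mod_cast this
  have hkR : (0 : ℝ) < k := by linarith
  set h : ℝ := 1 / (16 * (k : ℝ) ^ 3) with hh
  have hh0 : 0 < h := by positivity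
  have hT0 : (k : ℝ) ^ 2 * h = 1 / (16 * k) := by
    rw [hh]; field_simp
  have ht1 : (k : ℝ) * h = 1 / (16 * (k : ℝ) ^ 2) := by
    rw [hh]; field_simp
  have hT1 : (k : ℝ) ^ 2 * h ≤ 1 / 16 := by
    rw [hT0]
    exact one_div_le_one_div_of_le (by norm_num) (by linarith)
  -- the constant
  set κ : ℝ := ((k : ℝ) * h) ^ 2 / (4 * k) with hκ
  have hκ0 : 0 < κ := by positivity
  refine ⟨κ, hκ0, fun d l hl hld W hW c n u r hu hur => ?_⟩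
  have hlR : (0 : ℝ) < l := by exact_mod_cast hl
  choose ψ0 hψ0 using fun a : Zd d => ev_exists (fun _ : Zd d => (0 : ℝ)) a
  have hfree : ∀ t : ℝ, (k : ℝ) * h ≤ |t| → |t| ≤ (k : ℝ) ^ 2 * h →
      ∑ a ∈ bx c l, ∑ y ∈ bx c l, ‖ψ0 a t y‖ ^ 2 ≤ (1 / k) * ((bx c l).card : ℝ) := by
    intro t h1 h2
    refine (free_box hl c hψ0 t (h2.trans hT1)).trans ?_
    rw [bx_card, mul_comm]
    refine mul_le_mul_of_nonneg_right ?_ (by positivity)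
    -- exp(-x) ≤ 1 / x ≤ 1 / k
    have h3 : (k : ℝ) ≤ d * t ^ 2 / (4 * l) := by
      rw [le_div_iff₀ (by positivity)]
      have h4 : ((k : ℝ) * h) ^ 2 ≤ t ^ 2 := by
        rw [← sq_abs t]
        exact pow_le_pow_left₀ (by positivity) h1 2
      have h5 : (k : ℝ) * (4 * l) ≤ (k : ℝ) * (4 * (κ * d)) := by
        gcongr
      have h6 : (k : ℝ) * (4 * (κ * d)) = d * ((k : ℝ) * h) ^ 2 := by
        rw [hκ]; field_simp
      have h7 : (d : ℝ) * ((k : ℝ) * h) ^ 2 ≤ d * t ^ 2 := by gcongr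
      linarith
    have h8 : 0 < d * t ^ 2 / (4 * l) := hkR.trans_le h3
    rw [Real.exp_neg, one_div]
    refine inv_anti₀ hkR ?_
    exact h3.trans ((by linarith [Real.add_one_le_exp (d * t ^ 2 / (4 * (l : ℝ)))]))
  have h1 := gridS (F := FQ (H1 W) (bx c l)) (N := ((bx c l).card : ℝ))
    (e := 2 * (1 / (k : ℝ)) + 2 * ((k : ℝ) ^ 2 * h) ^ 2) (by positivity) (by positivity)
    (fun t => FQ_card (H1_sa W) _ t) hk0 hh0 (fun t ht1 ht2 => FQ_small _ ψ0 hψ0 hfree t ht1 ht2)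
  have h2 := eig_le (H1_sa W) (bx c l) (k ^ 2) (by positivity) h n u r hu (fun j => by
    apply Pool.Agent.Y662.TR.ll_ext
    intro x
    rw [H1_act hW, hur j x]
    rfl)
  have h3 : ((k : ℝ) ^ 2) ^ 2 * ∑ j, (∑ x ∈ bx c l, ‖u j x‖ ^ 2) ^ 2 ≤
      ((k : ℝ) ^ 2) ^ 2 * ((2 * (1 / (k : ℝ)) + 2 * ((k : ℝ) ^ 2 * h) ^ 2 + 2 / k) *
        ((bx c l).card : ℝ)) := by
    refine le_trans (le_of_eq ?_) (h2.trans h1)
    push_cast
    ring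
  have h4 := le_of_mul_le_mul_left h3 (by positivity)
  refine h4.trans (mul_le_mul_of_nonneg_right ?_ (by positivity))
  have h5 : 2 * ((k : ℝ) ^ 2 * h) ^ 2 ≤ 2 / k := by
    rw [hT0]
    rw [div_pow, one_pow, ← mul_div_assoc, mul_one]
    refine div_le_div_of_nonneg_left (by norm_num) hkR ?_
    nlinarith
  have h6 : 18 / (k : ℝ) ≤ ε := by
    rw [div_le_iff₀ hkR]
    rw [div_lt_iff₀ hε] at hk2
    linarith
  have h7 : 2 * (1 / (k : ℝ)) = 2 / k := by ring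
  have h8 : 18 / (k : ℝ) = 3 * (2 / k + 2 / k + 2 / k) := by ring
  have h9 : 0 ≤ 2 / (k : ℝ) := by positivity
  rw [h7]
  linarith

end Pool.Agent.H121.EH
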