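import Pool.Agent.H121.EH.Wave

/-! Project EH: the deterministic theorem for `-Δ + ω`. -/

set_option autoImplicit false
set_option linter.unusedSectionVars false

open MeasureTheory Finset

namespace Pool.Agent.H121.EH

open Pool.Agent.W788.LD.Spec (S)
open Pool.Agent.H4R2.LO (Zd)
open Pool.Agent.H989.DY (LL Ev ev_unique ev_exists)

theorem evP_cont {d : ℕ} {ω : Zd d → ℝ} {a : Zd d} {ψ : ℝ → Zd d → ℂ} (h : EvP d ω a ψ)
    (F : Finset (Zd d)) : Continuous fun t => ∑ y ∈ F, ‖ψ t y‖ ^ 2 := by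
  refine continuous_finset_sum _ fun y _ => ?_
  have h1 : Continuous fun t => ψ t y :=
    continuous_iff_continuousAt.2 fun t => (h.ode t y).continuousAt
  exact h1.norm.pow 2

theorem detP {ε : ℝ} (hε : 0 < ε) : ∃ κ : ℝ, 0 < κ ∧ ∀ (d l : ℕ), 0 < l → (l : ℝ) ≤ κ * d →
    ∀ (ω : Zd d → ℝ), (∀ x, |ω x| ≤ 1) → ∀ (c : Zd d) (T : ℝ), 1 ≤ T →
    ∀ ψ : Zd d → ℝ → Zd d → ℂ, (∀ a ∈ bx c l, EvP d ω a (ψ a)) →
    ∑ a ∈ bx c l, (1 / T) * ∫ t in (0 : ℝ)..T, ∑ y ∈ bx c l, ‖ψ a t y‖ ^ 2 ≤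
      ε * ((bx c l).card : ℝ) := by
  obtain ⟨κ, hκ, hdet⟩ := det hε
  refine ⟨κ, hκ, fun d l hl hld ω hω c T hT ψ hψ => ?_⟩
  have h1 : ∀ a : Zd d, ∃ φ : ℝ → Zd d → ℂ, a ∈ bx c l →
      (Ev d (fun x => -ω x) a φ ∧ ∀ t x, ‖φ t x‖ = ‖ψ a t x‖) := by
    intro a
    by_cases ha : a ∈ bx c l
    · obtain ⟨φ, hφ⟩ := evP_ev (hψ a ha)
      exact ⟨φ, fun _ => hφ⟩
    · exact ⟨ψ a, fun h => absurd h ha⟩
  choose φ hφ using h1
  have h2 := hdet d l hl hld (fun x => -ω x) (fun x => by rw [abs_neg]; exact hω x) c T hT φ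
    fun a ha => (hφ a ha).1
  have h3 : ∀ t, ∑ a ∈ bx c l, ∑ y ∈ bx c l, ‖φ a t y‖ ^ 2 =
      ∑ a ∈ bx c l, ∑ y ∈ bx c l, ‖ψ a t y‖ ^ 2 := fun t =>
    Finset.sum_congr rfl fun a ha => Finset.sum_congr rfl fun y _ => by rw [(hφ a ha).2]
  simp only [h3] at h2
  rw [intervalIntegral.integral_finset_sum
    (fun a ha => (evP_cont (hψ a ha) _).intervalIntegrable _ _)] at h2
  rw [← Finset.mul_sum, one_div, inv_mul_le_iff₀ (by linarith)]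
  linarith

end Pool.Agent.H121.EH
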