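import Pool.Agent.H121.EH.EigD

/-! Project EH: eigenfunctions of `-Δ + ω`. -/

set_option autoImplicit false
set_option linter.unusedSectionVars false

open MeasureTheory Finset

namespace Pool.Agent.H121.EH

open Pool.Agent.W788.LD.Spec (S)
open Pool.Agent.H4R2.LO (Zd)
open Pool.Agent.H989.DY (LL Ev ev_unique ev_exists)

theorem detEP {ε : ℝ} (hε : 0 < ε) : ∃ κ : ℝ, 0 < κ ∧ ∀ (d l : ℕ), 0 < l → (l : ℝ) ≤ κ * d →
    ∀ (ω : Zd d → ℝ), (∀ x, |ω x| ≤ 1) → ∀ (c : Zd d) (n : ℕ) (u : Fin n → LL (Zd d))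
    (E : Fin n → ℝ), Orthonormal ℂ u → (∀ j x, opP ω (fun y => u j y) x = (E j : ℂ) * u j x) →
    ∑ j, (∑ x ∈ bx c l, ‖u j x‖ ^ 2) ^ 2 ≤ ε * ((bx c l).card : ℝ) := by
  obtain ⟨κ, hκ, hdet⟩ := detE hε
  refine ⟨κ, hκ, fun d l hl hld ω hω c n u E hu he => ?_⟩
  refine hdet d l hl hld (fun x => -ω x) (fun x => by rw [abs_neg]; exact hω x) c n u
    (fun j => 2 * d - E j) hu fun j x => ?_
  have h1 := he j x
  rw [opP_eq] at h1
  push_cast at h1 ⊢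
  linear_combination -h1

end Pool.Agent.H121.EH
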