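import Pool.Agent.H121.EH.Abs

/-! Project EH: unitary groups with bounded generator. -/

set_option autoImplicit false

open scoped BigOperators InnerProductSpace ComplexConjugate
open MeasureTheory

namespace Pool.Agent.H121.EH

variable {E : Type} [NormedAddCommGroup E] [InnerProductSpace ℂ E] [CompleteSpace E]

/-- `exp (-i t A)` -/
noncomputable def Ug (A : E →L[ℂ] E) (t : ℝ) : E →L[ℂ] E :=
  NormedSpace.exp (t • (-Complex.I • A))

theorem Ug_zero (A : E →L[ℂ] E) : Ug A 0 = 1 := by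
  unfold Ug
  rw [zero_smul, NormedSpace.exp_zero]

theorem Ug_add (A : E →L[ℂ] E) (s t : ℝ) : Ug A (s + t) = Ug A s * Ug A t := by
  unfold Ug
  rw [add_smul]
  letI : NormedAlgebra ℚ (E →L[ℂ] E) := NormedAlgebra.restrictScalars ℚ ℂ (E →L[ℂ] E)
  exact NormedSpace.exp_add_of_commute (((Commute.refl (-Complex.I • A)).smul_left s).smul_right t)

theorem Ug_neg (A : E →L[ℂ] E) (t : ℝ) : Ug (-A) t = Ug A (-t) := by
  unfold Ug
  congr 1
  rw [smul_neg, neg_smul, smul_neg, neg_smul]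

theorem Ug_star {A : E →L[ℂ] E} (hA : IsSelfAdjoint A) (t : ℝ) : star (Ug A t) = Ug A (-t) := by
  unfold Ug
  rw [NormedSpace.star_exp]
  congr 1
  rw [star_smul, star_smul, hA.star_eq]
  simp

theorem Ug_inner {A : E →L[ℂ] E} (hA : IsSelfAdjoint A) (s t : ℝ) (x y : E) :
    ⟪Ug A s x, Ug A t y⟫_ℂ = ⟪x, Ug A (t - s) y⟫_ℂ := by
  have h1 : Ug A (t - s) = star (Ug A s) * Ug A t := by
    rw [Ug_star hA, ← Ug_add]
    congr 1
    ring
  rw [h1, ContinuousLinearMap.star_eq_adjoint]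
  change _ = ⟪x, ContinuousLinearMap.adjoint (Ug A s) (Ug A t y)⟫_ℂ
  rw [ContinuousLinearMap.adjoint_inner_right]

theorem Ug_norm {A : E →L[ℂ] E} (hA : IsSelfAdjoint A) (t : ℝ) (x : E) : ‖Ug A t x‖ = ‖x‖ := by
  have h1 := Ug_inner hA t t x x
  rw [sub_self, Ug_zero] at h1
  have h2 : ⟪Ug A t x, Ug A t x⟫_ℂ = ⟪x, x⟫_ℂ := h1
  rw [inner_self_eq_norm_sq_to_K, inner_self_eq_norm_sq_to_K] at h2
  have h3 : ‖Ug A t x‖ ^ 2 = ‖x‖ ^ 2 := by exact_mod_cast h2
  exact (sq_eq_sq₀ (norm_nonneg _) (norm_nonneg _)).1 h3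

theorem Ug_opnorm {A : E →L[ℂ] E} (hA : IsSelfAdjoint A) (t : ℝ) : ‖Ug A t‖ ≤ 1 :=
  ContinuousLinearMap.opNorm_le_bound _ zero_le_one fun x => by rw [Ug_norm hA, one_mul]

theorem Ug_deriv (A : E →L[ℂ] E) (t : ℝ) :
    HasDerivAt (fun t => Ug A t) ((-Complex.I • A) * Ug A t) t :=
  hasDerivAt_exp_smul_const' (𝕂 := ℝ) (-Complex.I • A) t

theorem Ug_deriv' (A : E →L[ℂ] E) (t : ℝ) :
    HasDerivAt (fun t => Ug A t) (Ug A t * (-Complex.I • A)) t :=
  hasDerivAt_exp_smul_const (𝕂 := ℝ) (-Complex.I • A) t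

/-- two groups are close for short times -/
theorem Ug_close {A B : E →L[ℂ] E} (hA : IsSelfAdjoint A) (hB : IsSelfAdjoint B) (t : ℝ) (x : E) :
    ‖Ug A t x - Ug B t x‖ ≤ ‖A - B‖ * |t| * ‖x‖ := by
  have hd : ∀ s : ℝ, HasDerivAt (fun s => Ug (-A) s * Ug B s)
      (Ug (-A) s * (Complex.I • (A - B)) * Ug B s) s := by
    intro s
    have h1 := (Ug_deriv' (-A) s).mul (Ug_deriv B s)
    refine h1.congr_deriv ?_
    rw [mul_assoc, mul_assoc, ← mul_add, ← add_mul]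
    congr 2
    rw [smul_sub, smul_neg, neg_smul, neg_neg, neg_smul, sub_eq_add_neg]
  have hn : ∀ s : ℝ, ‖deriv (fun s => Ug (-A) s * Ug B s) s‖ ≤ ‖A - B‖ := by
    intro s
    rw [(hd s).deriv]
    refine (norm_mul_le _ _).trans ?_
    refine (mul_le_mul (norm_mul_le _ _) (Ug_opnorm hB s) (norm_nonneg _) (by positivity)).trans ?_
    rw [mul_one]
    refine (mul_le_mul_of_nonneg_right (Ug_opnorm hA.neg s) (norm_nonneg _)).trans ?_
    rw [one_mul, norm_smul, Complex.norm_I, one_mul]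
  have h1 := Convex.norm_image_sub_le_of_norm_deriv_le (𝕜 := ℝ) (f := fun s => Ug (-A) s * Ug B s)
    (C := ‖A - B‖) (s := Set.univ) (x := 0) (y := t) (fun s _ => (hd s).differentiableAt)
    (fun s _ => hn s) convex_univ (Set.mem_univ _) (Set.mem_univ _)
  simp only [Ug_zero, mul_one, sub_zero, Real.norm_eq_abs] at h1
  have h2 : Ug A t x - Ug B t x = -(Ug A t ((Ug (-A) t * Ug B t - 1) x)) := by
    have h3 : Ug A t * (Ug (-A) t * Ug B t - 1) = Ug B t - Ug A t := by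
      rw [mul_sub, mul_one, ← mul_assoc, Ug_neg, ← Ug_add, add_neg_cancel, Ug_zero, one_mul]
    have h4 : Ug A t ((Ug (-A) t * Ug B t - 1) x) = (Ug B t - Ug A t) x := by
      rw [← h3]; rfl
    rw [h4]
    simp
  rw [h2, norm_neg, Ug_norm hA]
  exact ((Ug (-A) t * Ug B t - 1).le_opNorm x).trans (mul_le_mul_of_nonneg_right h1 (norm_nonneg _))

end Pool.Agent.H121.EH
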