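import Pool.Agent.H121.EH.Grp
import Pool.Agent.H989.DY.DyRes
import Pool.Agent.H989.DY.DyEx

/-! Project EH: wave packets on the lattice leave finite sets. -/

set_option autoImplicit false

open scoped BigOperators InnerProductSpace ComplexConjugate
open MeasureTheory

namespace Pool.Agent.H121.EH

open Pool.Agent.Y662.TR (dv inner_dv dv_apply norm_dv Mw Mw_apply Mw_norm Mw_sa clp_eq ev ll_sum)
open Pool.Agent.W788.LD.Spec (S)
open Pool.Agent.H4R2.LO (Zd)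
open Pool.Agent.H989.DY (LL Ev ev_unique DyRes_act DyRes_ker)

variable {d : ℕ}

/-- the neighbour operator -/
noncomputable def H0 (d : ℕ) : LL (Zd d) →L[ℂ] LL (Zd d) :=
  Pool.Agent.H987.Y.Op (Pool.Agent.H121.MY.adj d)

theorem H0_sa (d : ℕ) : IsSelfAdjoint (H0 d) :=
  (Pool.Agent.H168.Y987.op _ _ _ (DyRes_ker d)).2.2.1.sa

theorem H0_act (u : LL (Zd d)) (x : Zd d) : H0 d u x = S (fun y => u y) x := DyRes_act u x

/-- with a potential -/
noncomputable def H1 (W : Zd d → ℝ) : LL (Zd d) →L[ℂ] LL (Zd d) := H0 d + Mw 1 W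

theorem H1_sa (W : Zd d → ℝ) : IsSelfAdjoint (H1 W) := (H0_sa d).add (Mw_sa 1 W)

theorem H1_act {W : Zd d → ℝ} (hW : ∀ x, |W x| ≤ 1) (u : LL (Zd d)) (x : Zd d) :
    H1 W u x = S (fun y => u y) x + (W x : ℂ) * u x := by
  have h1 : H1 W u x = H0 d u x + Mw 1 W u x := rfl
  rw [h1, H0_act, Mw_apply, clp_eq (by rw [abs_one]; exact hW x)]

theorem H1_sub (W : Zd d → ℝ) : ‖H1 W - H0 d‖ ≤ 1 := by
  have h1 : H1 W - H0 d = Mw 1 W := by
    unfold H1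
    abel
  rw [h1]
  exact (Mw_norm 1 W).trans (by rw [abs_one])

/-- the wave packets are given by the group -/
theorem pk {A : LL (Zd d) →L[ℂ] LL (Zd d)} (hA : IsSelfAdjoint A) {W : Zd d → ℝ}
    (hact : ∀ (u : LL (Zd d)) (x : Zd d), A u x = S (fun y => u y) x + (W x : ℂ) * u x)
    {a : Zd d} {ψ : ℝ → Zd d → ℂ} (h : Ev d W a ψ) (t : ℝ) (x : Zd d) :
    ψ t x = Ug A t (dv a) x := by
  have h1 : Ev d W a (fun s y => Ug A s (dv a) y) := by
    refine ⟨fun y => ?_, fun s y => ?_, fun s => ?_⟩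
    · rw [Ug_zero]
      refine (dv_apply a y).trans ?_
      by_cases hy : y = a
      · rw [if_pos hy, if_pos hy]
      · rw [if_neg hy, if_neg hy]
    · have h2 := Ug_deriv A s
      let L : (LL (Zd d) →L[ℂ] LL (Zd d)) →L[ℝ] ℂ :=
        ((ev y).comp (ContinuousLinearMap.apply ℂ (LL (Zd d)) (dv a))).restrictScalars ℝ
      have h3 := L.hasFDerivAt.comp_hasDerivAt s h2
      refine h3.congr_deriv ?_
      have h4 : L ((-Complex.I • A) * Ug A s) = -Complex.I * (A (Ug A s (dv a)) y) := rfl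
      rw [h4, hact]
    · have h2 := ll_sum (Ug A s (dv a))
      rw [Ug_norm hA, norm_dv, one_pow] at h2
      exact h2
  exact congrFun (congrFun (ev_unique h h1) t) x

/-- the mass of the packets which start in `Q` in `Q`, as a function of the time -/
noncomputable def FQ (A : LL (Zd d) →L[ℂ] LL (Zd d)) (Q : Finset (Zd d)) (t : ℝ) : ℝ :=
  ∑ a : {x // x ∈ Q}, ∑ b : {x // x ∈ Q}, ‖Ug A t (dv b.1) a.1‖ ^ 2

theorem FQ_eq {A : LL (Zd d) →L[ℂ] LL (Zd d)} {Q : Finset (Zd d)} (t : ℝ) :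
    FQ A Q t = ∑ a ∈ Q, ∑ y ∈ Q, ‖Ug A t (dv a) y‖ ^ 2 := by
  unfold FQ
  rw [Finset.sum_comm, ← Finset.sum_coe_sort Q]
  refine Finset.sum_congr rfl fun a _ => ?_
  rw [← Finset.sum_coe_sort Q]

theorem FQ_cont {A : LL (Zd d) →L[ℂ] LL (Zd d)} {Q : Finset (Zd d)} : Continuous (FQ A Q) := by
  unfold FQ
  refine continuous_finset_sum _ fun a _ => continuous_finset_sum _ fun b _ => ?_
  have h1 : Continuous fun t : ℝ => Ug A t :=
    continuous_iff_continuousAt.2 fun t => (Ug_deriv A t).continuousAt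
  have h2 : Continuous fun t : ℝ => Ug A t (dv b.1) := h1.clm_apply continuous_const
  exact (((ev a.1).continuous.comp h2).norm).pow 2

theorem mass_le {A : LL (Zd d) →L[ℂ] LL (Zd d)} (hA : IsSelfAdjoint A) (Q : Finset (Zd d)) (t : ℝ)
    (a : Zd d) : ∑ y ∈ Q, ‖Ug A t (dv a) y‖ ^ 2 ≤ 1 := by
  have h1 := ll_sum (Ug A t (dv a))
  rw [Ug_norm hA, norm_dv, one_pow] at h1
  exact sum_le_hasSum Q (fun _ _ => by positivity) h1

theorem core {W : Zd d → ℝ} (hW : ∀ x, |W x| ≤ 1) (ψ : Zd d → ℝ → Zd d → ℂ)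
    (Q : Finset (Zd d)) (hψ : ∀ a ∈ Q, Ev d W a (ψ a)) {e : ℝ}
    (he0 : 0 ≤ e) {k : ℕ} (hk : 0 < k) {h : ℝ} (hh : 0 < h)
    (ψ0 : Zd d → ℝ → Zd d → ℂ) (hψ0 : ∀ a, Ev d (fun _ => 0) a (ψ0 a))
    (hfree : ∀ t : ℝ, (k : ℝ) * h ≤ |t| → |t| ≤ (k : ℝ) ^ 2 * h →
      ∑ a ∈ Q, ∑ y ∈ Q, ‖ψ0 a t y‖ ^ 2 ≤ e * (Q.card : ℝ))
    {T : ℝ} (hT : (k : ℝ) ^ 2 * h ≤ T) :
    ∫ t in (0 : ℝ)..T, ∑ a ∈ Q, ∑ y ∈ Q, ‖ψ a t y‖ ^ 2 ≤
      3 * ((2 * e + 2 * ((k : ℝ) ^ 2 * h) ^ 2) + 2 / k) * (Q.card : ℝ) * T := by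
  have hA := H1_sa W
  have hF : ∀ t, ∑ a ∈ Q, ∑ y ∈ Q, ‖ψ a t y‖ ^ 2 = FQ (H1 W) Q t := by
    intro t
    rw [FQ_eq]
    refine Finset.sum_congr rfl fun a ha => Finset.sum_congr rfl fun y _ => ?_
    rw [pk hA (H1_act hW) (hψ a ha) t y]
  simp only [hF]
  refine avg FQ_cont (fun t => by unfold FQ; positivity) (by positivity) (by positivity) (fun t => ?_)
    hk hh (fun t ht1 ht2 => ?_) (fun s => ?_) hT
  · rw [FQ_eq]
    refine (Finset.sum_le_sum fun a _ => mass_le hA Q t a).trans (le_of_eq ?_)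
    simp
  · rw [FQ_eq]
    have h1 : ∀ a ∈ Q, ∑ y ∈ Q, ‖Ug (H1 W) t (dv a) y‖ ^ 2 ≤
        2 * ∑ y ∈ Q, ‖ψ0 a t y‖ ^ 2 + 2 * ((k : ℝ) ^ 2 * h) ^ 2 := by
      intro a _
      have h2 : ∀ y, ψ0 a t y = Ug (H0 d) t (dv a) y := fun y =>
        pk (H0_sa d) (fun u x => by rw [H0_act]; simp) (hψ0 a) t y
      have h3 : ∀ y, ‖Ug (H1 W) t (dv a) y‖ ^ 2 ≤ 2 * ‖ψ0 a t y‖ ^ 2 +
          2 * ‖(Ug (H1 W) t (dv a) - Ug (H0 d) t (dv a)) y‖ ^ 2 := by
        intro y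
        rw [h2]
        have h4 : Ug (H1 W) t (dv a) y = Ug (H0 d) t (dv a) y +
            (Ug (H1 W) t (dv a) - Ug (H0 d) t (dv a)) y := by
          rw [lp.coeFn_sub, Pi.sub_apply]
          ring
        have h5 := norm_add_le (Ug (H0 d) t (dv a) y)
          ((Ug (H1 W) t (dv a) - Ug (H0 d) t (dv a)) y)
        rw [← h4] at h5
        have h6 := norm_nonneg (Ug (H1 W) t (dv a) y)
        nlinarith [sq_nonneg (‖Ug (H0 d) t (dv a) y‖ -
          ‖(Ug (H1 W) t (dv a) - Ug (H0 d) t (dv a)) y‖)]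
      refine (Finset.sum_le_sum fun y _ => h3 y).trans ?_
      rw [Finset.sum_add_distrib, ← Finset.mul_sum, ← Finset.mul_sum]
      have h7 : ∑ y ∈ Q, ‖(Ug (H1 W) t (dv a) - Ug (H0 d) t (dv a)) y‖ ^ 2 ≤
          ‖Ug (H1 W) t (dv a) - Ug (H0 d) t (dv a)‖ ^ 2 :=
        sum_le_hasSum Q (fun _ _ => by positivity) (ll_sum _)
      have h8 : ‖Ug (H1 W) t (dv a) - Ug (H0 d) t (dv a)‖ ≤ (k : ℝ) ^ 2 * h := by
        refine (Ug_close hA (H0_sa d) t (dv a)).trans ?_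
        rw [norm_dv, mul_one]
        refine (mul_le_mul_of_nonneg_right (H1_sub W) (abs_nonneg t)).trans ?_
        rw [one_mul]
        exact ht2
      have h9 := pow_le_pow_left₀ (norm_nonneg _) h8 2
      linarith
    refine (Finset.sum_le_sum h1).trans ?_
    rw [Finset.sum_add_distrib, ← Finset.mul_sum]
    have h2 := hfree t ht1 ht2
    rw [Finset.sum_const, nsmul_eq_mul]
    linarith
  · exact grid (fun (a : {x // x ∈ Q}) t => Ug (H1 W) t (dv a.1))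
      (fun a b r => ‖Ug (H1 W) r (dv b.1) a.1‖ ^ 2)
      (fun a b s t => by rw [Ug_inner hA, inner_dv]) (k ^ 2) s h

end Pool.Agent.H121.EH
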