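import Pool.Agent.H121.EH.Lat

/-! Project EH: measurability of the wave packets in the potential. -/

set_option autoImplicit false

open scoped BigOperators InnerProductSpace ComplexConjugate Nat
open MeasureTheory

namespace Pool.Agent.H121.EH

open Pool.Agent.Y662.TR (dv inner_dv dv_apply norm_dv Mw Mw_apply Mw_norm Mw_sa clp_eq clp_cont ev ll_sum
  ll_coord)
open Pool.Agent.W788.LD.Spec (S)
open Pool.Agent.H4R2.LO (Zd)
open Pool.Agent.H989.DY (LL Ev ev_unique DyRes_act DyRes_ker)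

variable {d : ℕ}

theorem pow_cont (a : Zd d) (n : ℕ) : ∀ x : Zd d,
    Continuous fun ω : Zd d → ℝ => ((H1 ω) ^ n) (dv a) x := by
  induction n with
  | zero => intro x; simp only [pow_zero]; exact continuous_const
  | succ n ih =>
    intro x
    have h1 : ∀ ω : Zd d → ℝ, ((H1 ω) ^ (n + 1)) (dv a) x =
        S (fun y => ((H1 ω) ^ n) (dv a) y) x +
          ((Pool.Agent.Y662.TR.clp 1 (ω x) : ℝ) : ℂ) * ((H1 ω) ^ n) (dv a) x := by
      intro ω
      rw [pow_succ']
      have h2 : ((H1 ω) * (H1 ω) ^ n) (dv a) x = H0 d (((H1 ω) ^ n) (dv a)) x +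
        Mw 1 ω (((H1 ω) ^ n) (dv a)) x := rfl
      rw [h2, H0_act, Mw_apply]
    simp only [h1]
    refine Continuous.add ?_ (Continuous.mul ?_ (ih x))
    · unfold S
      refine continuous_finset_sum _ fun i _ => ?_
      exact (ih _).add (ih _)
    · exact Complex.continuous_ofReal.comp ((clp_cont 1).comp (continuous_apply x))

theorem H1_norm (ω : Zd d → ℝ) : ‖H1 ω‖ ≤ ‖H0 d‖ + 1 := by
  unfold H1
  refine (norm_add_le _ _).trans ?_
  have := Mw_norm 1 ω
  rw [abs_one] at this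
  linarith

theorem pow_norm (a : Zd d) (ω : Zd d → ℝ) (n : ℕ) :
    ‖((H1 ω) ^ n) (dv a)‖ ≤ (‖H0 d‖ + 1) ^ n := by
  induction n with
  | zero => simp only [pow_zero]; exact (norm_dv a).le
  | succ n ih =>
    rw [pow_succ', pow_succ']
    refine (ContinuousLinearMap.le_opNorm (H1 ω) (((H1 ω) ^ n) (dv a))).trans ?_
    exact mul_le_mul (H1_norm ω) ih (norm_nonneg _) (by positivity)

theorem Ug_cont (a x : Zd d) (t : ℝ) :
    Continuous fun ω : Zd d → ℝ => Ug (H1 ω) t (dv a) x := by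
  have h1 : ∀ ω : Zd d → ℝ, Ug (H1 ω) t (dv a) x =
      ∑' n : ℕ, (((n ! : ℂ))⁻¹ * ((t : ℂ) * (-Complex.I)) ^ n * ((H1 ω) ^ n) (dv a) x) := by
    intro ω
    have h2 : t • (-Complex.I • H1 ω) = ((t : ℂ) * (-Complex.I)) • H1 ω := by
      rw [mul_smul]
      rfl
    have h3 := NormedSpace.exp_series_hasSum_exp' (𝕂 := ℂ) (((t : ℂ) * (-Complex.I)) • H1 ω)
    let L : (LL (Zd d) →L[ℂ] LL (Zd d)) →L[ℂ] ℂ :=
      (ev x).comp (ContinuousLinearMap.apply ℂ (LL (Zd d)) (dv a))
    have h4 := L.hasSum h3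
    have h6 : Ug (H1 ω) t = NormedSpace.exp (((t : ℂ) * (-Complex.I)) • H1 ω) :=
      congrArg NormedSpace.exp h2
    have h5 : Ug (H1 ω) t (dv a) x = L (Ug (H1 ω) t) := rfl
    rw [h5, h6, ← h4.tsum_eq]
    refine tsum_congr fun n => ?_
    rw [smul_pow, map_smul, map_smul, smul_eq_mul, smul_eq_mul, mul_assoc]
    rfl
  simp only [h1]
  refine continuous_tsum (u := fun n : ℕ => ((n ! : ℝ))⁻¹ * (|t| * (‖H0 d‖ + 1)) ^ n)
    (fun n => (pow_cont a n x).const_mul _) ?_ ?_
  · have := Real.summable_pow_div_factorial (|t| * (‖H0 d‖ + 1))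
    refine this.congr fun n => ?_
    rw [div_eq_inv_mul]
  · intro n ω
    rw [norm_mul, norm_mul, norm_inv, norm_pow, norm_mul, norm_neg, Complex.norm_I, mul_one,
      Complex.norm_real, Real.norm_eq_abs, mul_pow, mul_assoc, Complex.norm_natCast]
    refine mul_le_mul_of_nonneg_left ?_ (by positivity)
    refine mul_le_mul_of_nonneg_left ?_ (by positivity)
    refine (ll_coord _ x).trans ?_
    exact pow_norm a ω n

theorem Ug_meas (a x : Zd d) :
    Measurable (Function.uncurry fun (t : ℝ) (ω : Zd d → ℝ) => Ug (H1 ω) t (dv a) x) := by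
  apply measurable_uncurry_of_continuous_of_measurable
  · intro ω
    have h1 : Continuous fun t : ℝ => Ug (H1 ω) t :=
      continuous_iff_continuousAt.2 fun t => (Ug_deriv (H1 ω) t).continuousAt
    have h2 : Continuous fun t : ℝ => Ug (H1 ω) t (dv a) := h1.clm_apply continuous_const
    exact (ev x).continuous.comp h2
  · intro t
    exact (Ug_cont a x t).measurable

end Pool.Agent.H121.EH
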