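import Pool.Agent.H121.EH.FinE
import Pool.Agent.H989.DY.Stat

/-! Project EH: random potentials, a single site. -/

set_option autoImplicit false
set_option linter.unusedSectionVars false

open MeasureTheory Finset

namespace Pool.Agent.H121.EH

open Pool.Agent.W788.LD.Spec (S)
open Pool.Agent.H4R2.LO (Zd)
open Pool.Agent.H989.DY (LL Ev ev_unique ev_exists stat)

theorem ev_cont {d : ℕ} {W : Zd d → ℝ} {a : Zd d} {ψ : ℝ → Zd d → ℂ} (h : Ev d W a ψ)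
    (y : Zd d) : Continuous fun t => ‖ψ t y‖ ^ 2 := by
  have h1 : Continuous fun t => ψ t y :=
    continuous_iff_continuousAt.2 fun t => (h.ode t y).continuousAt
  exact h1.norm.pow 2

theorem rndP {ε : ℝ} (hε : 0 < ε) : ∃ κ : ℝ, 0 < κ ∧ ∀ d : ℕ, 1 ≤ κ * d →
    ∀ (μ : Measure ℝ) [IsProbabilityMeasure μ], μ (Set.Icc (-1) 1)ᶜ = 0 →
    ∀ T : ℝ, 1 ≤ T → ∀ a : Zd d, ∃ G : Set (Zd d → ℝ), MeasurableSet G ∧
      1 - ε ≤ (Measure.infinitePi fun _ : Zd d => μ).real G ∧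
      ∀ ω ∈ G, ∀ ψ : ℝ → Zd d → ℂ, EvP d ω a ψ → ∀ F : Finset (Zd d),
        (∀ y ∈ F, ∑ i, |(y i : ℝ)| ≤ κ * d) →
        (1 / T) * ∫ t in (0:ℝ)..T, ∑ y ∈ F, ‖ψ t (a + y)‖ ^ 2 ≤ ε := by
  obtain ⟨κ₀, hκ₀, hdet⟩ := det (ε := ε ^ 2 / 2) (by positivity)
  refine ⟨κ₀ / 4, by positivity, fun d hd μ _ hμ T hT a => ?_⟩
  obtain ⟨l, hl⟩ : ∃ l : ℕ, l = ⌊κ₀ * d⌋₊ := ⟨_, rfl⟩
  have hl1 : (l : ℝ) ≤ κ₀ * d := by rw [hl]; exact Nat.floor_le (by positivity)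
  have hl2 : κ₀ * d < l + 1 := by rw [hl]; exact Nat.lt_floor_add_one _
  have hl3 : 0 < l := by
    have : (0 : ℝ) < l := by linarith
    exact_mod_cast this
  have hr : (κ₀ / 4) * d ≤ ((l / 2 : ℕ) : ℝ) := by
    have h1 : l ≤ 2 * (l / 2) + 1 := by omega
    have h2 : (l : ℝ) ≤ 2 * ((l / 2 : ℕ) : ℝ) + 1 := by exact_mod_cast h1
    linarith
  have hTp : (0 : ℝ) < T := by linarith
  obtain ⟨G, hG, hP, hG3⟩ := stat (d := d) (l := l) (r := l / 2) hl3 (by omega) hμ (lam := -1)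
    (T := T) (η := ε) hTp hε (fun ω hω ψ hψ => by
      have h1 := hdet d l hl3 hl1 (fun x => -1 * ω x)
        (fun x => by rw [abs_mul, abs_neg, abs_one, one_mul]; exact hω x) (0 : Zd d) T hT ψ
        fun a _ => hψ a
      rw [bx_card] at h1
      rw [intervalIntegral.integral_finset_sum (fun a _ => by
        refine Continuous.intervalIntegrable ?_ _ _
        exact continuous_finset_sum _ fun y _ => ev_cont (hψ a) y)] at h1
      have h2 : ∀ a ∈ bx (0 : Zd d) l, ∫ t in (0 : ℝ)..T, ∑ y ∈ bx (0 : Zd d) l, ‖ψ a t y‖ ^ 2 =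
          ∑ y ∈ bx (0 : Zd d) l, ∫ t in (0 : ℝ)..T, ‖ψ a t y‖ ^ 2 := fun a _ =>
        intervalIntegral.integral_finset_sum fun y _ => (ev_cont (hψ a) y).intervalIntegrable _ _
      rw [Finset.sum_congr rfl h2] at h1
      have h3 : ∑ a ∈ bx (0 : Zd d) l, ∑ y ∈ bx (0 : Zd d) l,
          (1 / T) * ∫ t in (0:ℝ)..T, ‖ψ a t y‖ ^ 2 ≤ (ε ^ 2 / 2) * l ^ d := by
        simp only [← Finset.mul_sum]
        rw [one_div, inv_mul_le_iff₀ hTp]
        linarith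
      exact h3) a
  refine ⟨G, hG, hP, fun ω hω ψ hψ F hF => ?_⟩
  obtain ⟨φ, hφ, hφ2⟩ := evP_ev hψ
  have h1 : Ev d (fun x => -1 * ω x) a φ := by
    have e : (fun x => -1 * ω x) = fun x => -ω x := by funext x; ring
    rw [e]; exact hφ
  have h2 := hG3 ω hω φ h1 F fun y hy => (hF y hy).trans hr
  simp only [hφ2] at h2
  exact h2

end Pool.Agent.H121.EH
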