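import Pool.Agent.H121.EH.Det

/-! Project EH: from `-Δ + ω` to `S + W` by complex conjugation and a change of phase
(as in `Pool/Agent/H989/DY/Unif.lean`). -/

set_option autoImplicit false
set_option linter.unusedSectionVars false

open MeasureTheory Finset

namespace Pool.Agent.H121.EH

open Pool.Agent.W788.LD.Spec (S)
open Pool.Agent.H4R2.LO (Zd)
open Pool.Agent.H989.DY (LL Ev ev_unique ev_exists)

/-- `(Δ_ω u)(x) = -∑_{|n| = 1} (u(x + n) - u(x)) + ω_x u(x)` -/
noncomputable def opP {d : ℕ} (ω : Zd d → ℝ) (u : Zd d → ℂ) (x : Zd d) : ℂ :=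
  -∑ i, ((u (x + Pi.single i 1) - u x) + (u (x - Pi.single i 1) - u x)) + (ω x : ℂ) * u x

lemma opP_eq {d : ℕ} (ω : Zd d → ℝ) (u : Zd d → ℂ) (x : Zd d) :
    opP ω u x = -(S u x + ((-(ω x + 2 * d) : ℝ) : ℂ) * u x) := by
  unfold opP S
  simp only [Finset.sum_add_distrib, Finset.sum_sub_distrib, Finset.sum_const,
    Finset.card_univ, Fintype.card_fin, nsmul_eq_mul]
  push_cast
  ring

lemma S_cj {d : ℕ} (u : Zd d → ℂ) (x : Zd d) :
    S (fun y => (starRingEnd ℂ) (u y)) x = (starRingEnd ℂ) (S u x) := by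
  unfold S
  simp only [map_sum, map_add]

/-- the wave packets of `-Δ + ω` -/
structure EvP (d : ℕ) (ω : Zd d → ℝ) (a : Zd d) (ψ : ℝ → Zd d → ℂ) : Prop where
  init : ∀ x, ψ 0 x = if x = a then 1 else 0
  ode : ∀ s x, HasDerivAt (fun s => ψ s x) (-Complex.I * opP ω (ψ s) x) s
  norm : ∀ s, HasSum (fun x => ‖ψ s x‖ ^ 2) 1

lemma evP_conj {d : ℕ} {ω : Zd d → ℝ} {a : Zd d} {ψ : ℝ → Zd d → ℂ} (h : EvP d ω a ψ) :
    Ev d (fun x => -(ω x + 2 * d)) a (fun s x => (starRingEnd ℂ) (ψ s x)) := by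
  refine ⟨fun x => ?_, fun s x => ?_, fun s => ?_⟩
  · rw [h.init]
    split_ifs <;> simp
  · have h1 := (h.ode s x)
    have h2 := (Complex.conjCLE.hasFDerivAt (x := ψ s x)).comp_hasDerivAt s h1
    refine h2.congr_deriv ?_
    rw [S_cj]
    show (starRingEnd ℂ) (-Complex.I * opP ω (ψ s) x) = _
    rw [opP_eq, map_mul, map_neg, Complex.conj_I, map_neg, map_add, map_mul, Complex.conj_ofReal]
    ring
  · simpa only [Complex.norm_conj] using h.norm s

lemma evP_of {d : ℕ} {ω : Zd d → ℝ} {a : Zd d} {ψ : ℝ → Zd d → ℂ}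
    (h : Ev d (fun x => -(ω x + 2 * d)) a ψ) : EvP d ω a (fun s x => (starRingEnd ℂ) (ψ s x)) := by
  refine ⟨fun x => ?_, fun s x => ?_, fun s => ?_⟩
  · rw [h.init]
    split_ifs <;> simp
  · have h1 := (h.ode s x)
    have h2 := (Complex.conjCLE.hasFDerivAt (x := ψ s x)).comp_hasDerivAt s h1
    refine h2.congr_deriv ?_
    rw [opP_eq, S_cj]
    show (starRingEnd ℂ) (-Complex.I * (S (ψ s) x + ((-(ω x + 2 * d) : ℝ) : ℂ) * ψ s x)) = _
    rw [map_mul, map_neg, Complex.conj_I, map_add, map_mul, Complex.conj_ofReal]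
    ring
  · simpa only [Complex.norm_conj] using h.norm s

theorem evP_exists {d : ℕ} (ω : Zd d → ℝ) (a : Zd d) : ∃ ψ, EvP d ω a ψ := by
  obtain ⟨ψ, hψ⟩ := ev_exists (fun x : Zd d => -(ω x + 2 * d)) a
  exact ⟨_, evP_of hψ⟩

theorem evP_unique {d : ℕ} {ω : Zd d → ℝ} {a : Zd d} {ψ φ : ℝ → Zd d → ℂ} (h : EvP d ω a ψ)
    (h' : EvP d ω a φ) : ψ = φ := by
  have h1 := ev_unique (evP_conj h) (evP_conj h')
  funext s x
  have h2 := congrFun (congrFun h1 s) x
  exact (starRingEnd ℂ).injective h2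

/-- gauge transformation: a constant in the potential -/
lemma ev_gauge {d : ℕ} {W : Zd d → ℝ} {k : ℝ} {a : Zd d} {ψ : ℝ → Zd d → ℂ}
    (h : Ev d (fun x => W x + k) a ψ) :
    Ev d W a (fun s x => Complex.exp (Complex.I * k * s) * ψ s x) := by
  refine ⟨fun x => ?_, fun s x => ?_, fun s => ?_⟩
  · rw [h.init]
    simp
  · have h0 : HasDerivAt (fun s : ℝ => Complex.I * k * (s : ℂ)) (Complex.I * k) s := by
      have := (Complex.ofRealCLM.hasDerivAt (x := s)).const_mul (Complex.I * (k : ℂ))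
      simpa using this
    have h1 := h0.cexp
    have h2 := h1.mul (h.ode s x)
    refine h2.congr_deriv ?_
    have h3 : S (fun y => Complex.exp (Complex.I * k * s) * ψ s y) x
        = Complex.exp (Complex.I * k * s) * S (ψ s) x := by
      unfold S
      rw [Finset.mul_sum]
      refine Finset.sum_congr rfl fun i _ => ?_
      ring
    rw [h3]
    push_cast
    ring
  · have h1 : ∀ x, ‖Complex.exp (Complex.I * k * s) * ψ s x‖ ^ 2 = ‖ψ s x‖ ^ 2 := by
      intro x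
      rw [norm_mul, norm_ph, one_mul]
    simpa only [h1] using h.norm s
where
  norm_ph {k s : ℝ} : ‖Complex.exp (Complex.I * k * s)‖ = 1 := by
    have e : Complex.I * (k:ℂ) * (s:ℂ) = ((k * s : ℝ) : ℂ) * Complex.I := by push_cast; ring
    rw [e, Complex.norm_exp_ofReal_mul_I]

/-- from the packets of `-Δ + ω` to those of `S - ω`, with the same masses -/
lemma evP_ev {d : ℕ} {ω : Zd d → ℝ} {a : Zd d} {ψ : ℝ → Zd d → ℂ} (h : EvP d ω a ψ) :
    ∃ φ : ℝ → Zd d → ℂ, Ev d (fun x => -ω x) a φ ∧ ∀ t x, ‖φ t x‖ = ‖ψ t x‖ := by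
  have h1 : Ev d (fun x => (fun y => -ω y) x + (-(2 * d) : ℝ)) a
      (fun s x => (starRingEnd ℂ) (ψ s x)) := by
    have := evP_conj h
    have e : (fun x => -(ω x + 2 * (d : ℝ))) = fun x => (fun y => -ω y) x + (-(2 * d) : ℝ) := by
      funext x; ring
    rw [e] at this
    exact this
  refine ⟨_, ev_gauge h1, fun t x => ?_⟩
  rw [norm_mul, ev_gauge.norm_ph, one_mul, Complex.norm_conj]

end Pool.Agent.H121.EH
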